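import Mathlib
import Pool.Agent.Lib_helper38.XA.Defs

set_option autoImplicit false

/-! XA: the Fourier transform on a finite abelian group. -/

namespace Pool.Agent.XA

open Finset Filter Pool.Agent.XO

section ft

variable {A : Type} [AddCommGroup A] [Fintype A]

/-- the Fourier transform -/
noncomputable def ft (f : A → ℝ) (χ : AddChar A ℂ) : ℂ :=
  (Fintype.card A : ℂ)⁻¹ * ∑ a, (f a : ℂ) * (starRingEnd ℂ) (χ a)

end ft

end Pool.Agent.XA
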