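import Mathlib
import Pool.Agent.Lib_helper38.XA.Defs
import Pool.Agent.Lib_helper16.XA.Ft

set_option autoImplicit false

namespace Pool.Agent.XA

open Finset Filter Pool.Agent.XO

section ft

variable {A : Type} [AddCommGroup A] [Fintype A]

/-- the values of a character are powers of a primitive root of unity -/
theorem g2_pow (χ : AddChar A ℂ) {ζ : ℂ} (hζ : IsPrimitiveRoot ζ (addOrderOf χ)) (a : A) :
    ∃ n : ℕ, ζ ^ n = χ a := by
  have hpos : 0 < addOrderOf χ := addOrderOf_pos χ
  have h1 : χ a ^ (addOrderOf χ) = 1 := by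
    have h2 : (addOrderOf χ • χ) a = (0 : AddChar A ℂ) a := by rw [addOrderOf_nsmul_eq_zero]
    rwa [AddChar.nsmul_apply, AddChar.zero_apply] at h2
  have : NeZero (addOrderOf χ) := ⟨hpos.ne'⟩
  obtain ⟨i, _, hi⟩ := hζ.eq_pow_of_pow_eq_one h1
  exact ⟨i, hi⟩

/-- Galois -/
theorem ft_gal {f : A → ℝ} (hf : ∀ a, f a = 1 ∨ f a = -1) {χ : AddChar A ℂ} (hχ : ft f χ ≠ 0)
    {k : ℕ} (hk : Nat.Coprime k (addOrderOf χ)) : ft f (k • χ) ≠ 0 := by
  classical
  have hpos : 0 < addOrderOf χ := addOrderOf_pos χ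
  set m := addOrderOf χ with hm
  have hprim : IsPrimitiveRoot (Complex.exp (2 * Real.pi * Complex.I / m)) m :=
    Complex.isPrimitiveRoot_exp m hpos.ne'
  set ζ := Complex.exp (2 * Real.pi * Complex.I / m) with hζ
  choose n hn using fun a => g2_pow χ hprim a
  -- integer values
  set g : A → ℤ := fun a => if f a = 1 then 1 else -1 with hg
  have hgf : ∀ a, (f a : ℂ) = ((g a : ℤ) : ℂ) := by
    intro a
    simp only [hg]
    rcases hf a with h | h
    · rw [if_pos h, h]; norm_num
    · rw [if_neg (by rw [h]; norm_num), h]; norm_num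
  set μ := (starRingEnd ℂ) ζ with hμ
  have hμprim : IsPrimitiveRoot μ m := by
    have := hprim.map_of_injective (f := (starRingEnd ℂ)) (RingHom.injective _)
    exact this
  set P : Polynomial ℤ := ∑ a, Polynomial.C (g a) * Polynomial.X ^ (n a) with hP
  have hPe : ∀ z : ℂ, Polynomial.aeval z P = ∑ a, (f a : ℂ) * z ^ (n a) := by
    intro z
    rw [hP, map_sum]
    apply Finset.sum_congr rfl
    intro a _
    rw [map_mul, map_pow, Polynomial.aeval_X, hgf a]
    simp
  have hcard : (Fintype.card A : ℂ)⁻¹ ≠ 0 := by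
    have : (Fintype.card A : ℂ) ≠ 0 := by
      exact_mod_cast (Fintype.card_pos (α := A)).ne'
    exact inv_ne_zero this
  have e1 : ft f χ = (Fintype.card A : ℂ)⁻¹ * Polynomial.aeval μ P := by
    rw [hPe]
    unfold ft
    congr 1
    apply Finset.sum_congr rfl
    intro a _
    rw [← hn a, map_pow]
  have e2 : ft f (k • χ) = (Fintype.card A : ℂ)⁻¹ * Polynomial.aeval (μ ^ k) P := by
    rw [hPe]
    unfold ft
    congr 1
    apply Finset.sum_congr rfl
    intro a _
    rw [AddChar.nsmul_apply, ← hn a, map_pow, map_pow, ← pow_mul, ← pow_mul, mul_comm (n a) k]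
  intro h0
  rw [e2] at h0
  have h1 : Polynomial.aeval (μ ^ k) P = 0 := (mul_eq_zero.1 h0).resolve_left hcard
  have hint : IsIntegral ℤ (μ ^ k) := (hμprim.isIntegral hpos).pow k
  have h2 : minpoly ℤ (μ ^ k) ∣ P := minpoly.isIntegrallyClosed_dvd hint h1
  rw [← hμprim.minpoly_eq_pow_coprime hk] at h2
  obtain ⟨R, hR⟩ := h2
  apply hχ
  rw [e1, hR, map_mul, minpoly.aeval, zero_mul, mul_zero]

end ft

end Pool.Agent.XA
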