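import Mathlib
import Pool.Agent.Lib_helper38.XA.Defs
import Pool.Agent.Lib_helper16.XA.Ft
import Pool.Agent.Lib_helper16.XA.G2

set_option autoImplicit false

namespace Pool.Agent.XA

open Finset Filter Pool.Agent.XO

theorem g4_odd (m : ℕ) : Odd m → m ≤ m.totient ^ 2 := by
  induction m using Nat.recOnPosPrimePosCoprime with
  | prime_pow p n hp hn =>
    intro hodd
    have hp2 : p ≠ 2 := by
      rintro rfl
      rw [Nat.odd_pow_iff hn.ne'] at hodd
      exact absurd hodd (by decide)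
    have hp3 : 3 ≤ p := by
      have := hp.two_le
      omega
    obtain ⟨k, rfl⟩ : ∃ k, n = k + 1 := ⟨n - 1, by omega⟩
    rw [Nat.totient_prime_pow_succ hp]
    obtain ⟨r, rfl⟩ : ∃ r, p = r + 3 := ⟨p - 3, by omega⟩
    have h1 : 1 ≤ (r + 3) ^ k := Nat.one_le_pow _ _ (by omega)
    have h2 : r + 3 ≤ (r + 3 - 1) ^ 2 := by
      rw [show r + 3 - 1 = r + 2 by omega]
      nlinarith
    calc (r + 3) ^ (k + 1) = (r + 3) ^ k * (r + 3) := pow_succ _ _
      _ ≤ ((r + 3) ^ k * (r + 3) ^ k) * (r + 3 - 1) ^ 2 := by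
          apply Nat.mul_le_mul _ h2
          nlinarith
      _ = ((r + 3) ^ k * (r + 3 - 1)) ^ 2 := by ring
  | zero => intro h; exact absurd h (by decide)
  | one => intro _; simp
  | coprime a b ha hb hab iha ihb =>
    intro hodd
    rw [Nat.odd_mul] at hodd
    rw [Nat.totient_mul hab, mul_pow]
    exact Nat.mul_le_mul (iha hodd.1) (ihb hodd.2)

theorem g4_sq (m : ℕ) : m ≤ 2 * m.totient ^ 2 := by
  rcases Nat.eq_zero_or_pos m with rfl | hm
  · simp
  obtain ⟨a, b, hb, rfl⟩ := Nat.exists_eq_two_pow_mul_odd hm.ne'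
  have h1 := g4_odd b hb
  rcases Nat.eq_zero_or_pos a with rfl | ha
  · rw [pow_zero, one_mul]
    omega
  obtain ⟨k, rfl⟩ : ∃ k, a = k + 1 := ⟨a - 1, by omega⟩
  have hcop : Nat.Coprime (2 ^ (k + 1)) b :=
    Nat.Coprime.pow_left _ (Nat.coprime_two_left.2 hb)
  rw [Nat.totient_mul hcop, Nat.totient_prime_pow_succ Nat.prime_two]
  have h2 : 1 ≤ 2 ^ k := Nat.one_le_two_pow
  calc 2 ^ (k + 1) * b = 2 * 2 ^ k * b := by rw [pow_succ]; ring
    _ ≤ 2 * (2 ^ k * 2 ^ k) * (b.totient ^ 2) := by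
        apply Nat.mul_le_mul _ h1
        nlinarith
    _ = 2 * (2 ^ k * (2 - 1) * b.totient) ^ 2 := by
        rw [show 2 - 1 = 1 by norm_num]; ring

section ft

variable {A : Type} [AddCommGroup A] [Fintype A]

theorem g4_totient {f : A → ℝ} (hf : ∀ a, f a = 1 ∨ f a = -1) {χ : AddChar A ℂ}
    (hχ : ft f χ ≠ 0) : (addOrderOf χ).totient ≤ (spt (ft f)).card := by
  classical
  rw [Nat.totient_eq_card_coprime]
  refine Finset.card_le_card_of_injOn (fun k => k • χ) ?_ ?_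
  · intro k hk
    rw [Finset.mem_coe, Finset.mem_filter] at hk
    have h1 := ft_gal hf hχ (k := k) hk.2.symm
    simpa [spt] using h1
  · intro k hk k' hk' h
    rw [Finset.mem_coe, Finset.mem_filter, Finset.mem_range] at hk hk'
    exact nsmul_injOn_Iio_addOrderOf hk.1 hk'.1 h

theorem ft_ord {f : A → ℝ} (hf : ∀ a, f a = 1 ∨ f a = -1) {χ : AddChar A ℂ} (hχ : ft f χ ≠ 0) :
    addOrderOf χ ≤ 2 * (spt (ft f)).card ^ 2 := by
  refine (g4_sq (addOrderOf χ)).trans ?_
  exact Nat.mul_le_mul_left 2 (Nat.pow_le_pow_left (g4_totient hf hχ) 2)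

end ft

end Pool.Agent.XA
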