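import Mathlib
import Pool.Agent.Lib_helper38.XA.Defs

set_option autoImplicit false

namespace Pool.Agent.XA

open Finset Filter Pool.Agent.XO

variable {V : Type} [AddCommGroup V] [Fintype V] [DecidableEq V]
variable {W : Type} [AddCommGroup W] [Fintype W] [DecidableEq W]

theorem k2c_mem {F : V → ℂ} {c : V} : c ∈ spt F ↔ F c ≠ 0 := by
  classical
  simp [spt]

/-- the trivial bound -/
theorem kills_spt (F : V → ℂ) : Dif F (spt F) ∧ Kills F (spt F) := by
  classical
  refine ⟨fun g hg => Or.inl (k2c_mem.1 hg), 1, fun q hq => ?_⟩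
  apply Finset.sum_eq_zero
  intro c _
  split_ifs with h
  · by_cases hc : F c = 0
    · rw [hc, zero_mul]
    · exfalso
      apply hq
      have h1 : c ∈ AddSubgroup.closure ((spt F : Finset V) : Set V) :=
        AddSubgroup.subset_closure (Finset.mem_coe.2 (k2c_mem.2 hc))
      have h2 := AddSubgroup.sub_mem _ h1 h
      rwa [sub_sub_cancel] at h2
  · rfl

/-- TWXZ: every class outside `U` is hit by `0` or at least two elements of the support -/
theorem half_push {F : V → ℂ} {T : Finset V} (hK : Kills F T) {π : V →+ W}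
    (hπ : ∀ c, π c = 0 ↔ c ∈ AddSubgroup.closure (T : Set V)) (ξ : AddChar V ℂ) :
    2 * ((spt (push π F ξ)).erase 0).card ≤ ((spt F).erase 0).card := by
  classical
  obtain ⟨ξ₀, hξ₀⟩ := hK
  set Q := (spt (push π F ξ)).erase 0 with hQ
  set fib : W → Finset V := fun q => ((spt F).erase 0).filter (fun c => π c = q) with hfib
  have hsub : Q.biUnion fib ⊆ (spt F).erase 0 := by
    intro c hc
    rw [Finset.mem_biUnion] at hc
    obtain ⟨q, _, hq⟩ := hc
    exact (Finset.mem_filter.1 hq).1
  have hdis : ∀ q ∈ Q, ∀ q' ∈ Q, q ≠ q' → Disjoint (fib q) (fib q') := by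
    intro q _ q' _ hne
    rw [Finset.disjoint_left]
    intro c hc hc'
    exact hne ((Finset.mem_filter.1 hc).2.symm.trans (Finset.mem_filter.1 hc').2)
  have htwo : ∀ q ∈ Q, 2 ≤ (fib q).card := by
    intro q hq
    obtain ⟨hq0, hqs⟩ := Finset.mem_erase.1 hq
    have hpq := k2c_mem.1 hqs
    -- an element of the class
    obtain ⟨c₀, hc₀, hπ₀⟩ : ∃ c, F c ≠ 0 ∧ π c = q := by
      by_contra hcon
      push Not at hcon
      apply hpq
      unfold push
      apply Finset.sum_eq_zero
      intro c _
      split_ifs with h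
      · by_cases hc : F c = 0
        · rw [hc, zero_mul]
        · exact absurd h (hcon c hc)
      · rfl
    have hc₀U : c₀ ∉ AddSubgroup.closure (T : Set V) := by
      intro h
      exact hq0 (hπ₀ ▸ (hπ c₀).2 h)
    have hmem₀ : c₀ ∈ fib q := by
      rw [Finset.mem_filter, Finset.mem_erase]
      refine ⟨⟨?_, k2c_mem.2 hc₀⟩, hπ₀⟩
      rintro rfl
      exact hc₀U (AddSubgroup.zero_mem _)
    by_contra hlt
    have hone : (fib q).card = 1 := by
      have : 0 < (fib q).card := Finset.card_pos.2 ⟨c₀, hmem₀⟩
      omega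
    obtain ⟨d, hd⟩ := Finset.card_eq_one.1 hone
    have hd₀ : c₀ = d := by
      rw [hd] at hmem₀
      exact Finset.mem_singleton.1 hmem₀
    have hsum := hξ₀ c₀ hc₀U
    rw [Finset.sum_eq_single c₀] at hsum
    · rw [sub_self, if_pos (AddSubgroup.zero_mem _)] at hsum
      rcases mul_eq_zero.1 hsum with h | h
      · exact hc₀ h
      · exact (AddChar.val_isUnit ξ₀ c₀).ne_zero h
    · intro c _ hne
      split_ifs with h
      · by_cases hc : F c = 0
        · rw [hc, zero_mul]
        · exfalso
          have h1 : π (c - c₀) = 0 := (hπ _).2 h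
          rw [map_sub, sub_eq_zero] at h1
          have hcq : π c = q := h1.trans hπ₀
          have : c ∈ fib q := by
            rw [Finset.mem_filter, Finset.mem_erase]
            refine ⟨⟨?_, k2c_mem.2 hc⟩, hcq⟩
            rintro rfl
            rw [map_zero] at hcq
            exact hq0 hcq.symm
          rw [hd, Finset.mem_singleton] at this
          exact hne (this.trans hd₀.symm)
      · rfl
    · intro h
      exact absurd (Finset.mem_univ _) h
  calc 2 * Q.card = ∑ q ∈ Q, 2 := by rw [Finset.sum_const, smul_eq_mul, mul_comm]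
    _ ≤ ∑ q ∈ Q, (fib q).card := Finset.sum_le_sum htwo
    _ = (Q.biUnion fib).card := (Finset.card_biUnion hdis).symm
    _ ≤ ((spt F).erase 0).card := Finset.card_le_card hsub

end Pool.Agent.XA
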